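import Pool.Agent.PCL.Stmts

/-!
# Squad PCL (MP_1fc801_co), row PLY (helper16)
-/

set_option autoImplicit false

namespace Pool.Agent.PCL.H16

theorem pf_eq {ι : Type} {m : ℕ} (x y : Fin m → ι → ℤ) (s : Fin m → ι) :
    pf x y s = ((Polynomial.X : Polynomial ℤ) •
      (Matrix.of fun i j => y j (s i)).map (Polynomial.C : ℤ →+* Polynomial ℤ) +
      (Matrix.of fun i j => x j (s i)).map (Polynomial.C : ℤ →+* Polynomial ℤ)).det := by
  unfold pf
  apply congrArg Matrix.det
  apply Matrix.ext
  intro i j
  rw [Matrix.add_apply, Matrix.smul_apply, Matrix.map_apply, Matrix.map_apply, Matrix.of_apply,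
    Matrix.of_apply, Matrix.of_apply, smul_eq_mul, add_comm]

theorem ply : PlyStmt := by
  intro ι m x y s
  refine ⟨?_, ?_, ?_⟩
  · rw [pf_eq]
    have h := Polynomial.natDegree_det_X_add_C_le (Matrix.of fun i j => y j (s i))
      (Matrix.of fun i j => x j (s i))
    rw [Fintype.card_fin] at h
    exact h
  · rw [pf_eq]
    have h := Polynomial.coeff_det_X_add_C_card (Matrix.of fun i j => y j (s i))
      (Matrix.of fun i j => x j (s i))
    rw [Fintype.card_fin] at h
    exact h
  · intro a
    unfold pf mn
    have h := RingHom.map_det (Polynomial.evalRingHom a)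
      (Matrix.of fun i j => Polynomial.C (x j (s i)) + Polynomial.X * Polynomial.C (y j (s i)))
    rw [Polynomial.coe_evalRingHom] at h
    rw [h]
    apply congrArg Matrix.det
    apply Matrix.ext
    intro i j
    simp

end Pool.Agent.PCL.H16
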